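import Pool.Agent.Y616.BM.Main

set_option autoImplicit false

/-!
# Barnes zeta functions: the Diophantine criterion for the mean square, part 1: the kernel on a ray
-/

namespace Pool.Agent.T6.H60.BC

open Finset Filter Topology MeasureTheory Complex Set
open Pool.Agent.H131R5.BZ Pool.Agent.Y930.Bz Pool.Agent.Y616.BM

/-- the distance from `x` to the nearest integer -/
noncomputable def nd (x : ℝ) : ℝ := |x - round x|

lemma nd_nonneg (x : ℝ) : 0 ≤ nd x := abs_nonneg _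

lemma nd_le_half (x : ℝ) : nd x ≤ 1 / 2 := abs_sub_round x

lemma nd_le_sub (x : ℝ) (n : ℤ) : nd x ≤ |x - n| := round_le x n

lemma nd_meas : Measurable nd := by
  have h : nd = fun x : ℝ => min (Int.fract x) (1 - Int.fract x) := by
    funext x
    exact abs_sub_round_eq_min x
  rw [h]
  exact (measurable_fract).min (measurable_const.sub measurable_fract)

/-- the product in the Diophantine criterion -/
noncomputable def pr {r : ℕ} (w : Fin r → ℝ) (δ y : ℝ) : ℝ :=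
  ∏ j, ((max δ (nd (w j * y))) ^ 2)⁻¹

lemma pr_nonneg {r : ℕ} (w : Fin r → ℝ) (δ y : ℝ) : 0 ≤ pr w δ y :=
  Finset.prod_nonneg fun j _ => by positivity

lemma pr_meas {r : ℕ} (w : Fin r → ℝ) (δ : ℝ) : Measurable (pr w δ) := by
  unfold pr
  refine Finset.measurable_fun_prod _ fun j _ => ?_
  refine Measurable.inv (Measurable.pow_const (Measurable.max measurable_const ?_) 2)
  exact nd_meas.comp (measurable_const_mul _)

lemma pr_le {r : ℕ} (w : Fin r → ℝ) {δ : ℝ} (hδ : 0 < δ) (y : ℝ) : pr w δ y ≤ ((δ ^ 2)⁻¹) ^ r := by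
  unfold pr
  calc ∏ j : Fin r, ((max δ (nd (w j * y))) ^ 2)⁻¹ ≤ ∏ _j : Fin r, (δ ^ 2)⁻¹ := by
        refine Finset.prod_le_prod (fun j _ => by positivity) fun j _ => ?_
        apply inv_anti₀ (by positivity)
        exact pow_le_pow_left₀ hδ.le (le_max_left _ _) 2
    _ = _ := by simp

lemma pr_anti {r : ℕ} (w : Fin r → ℝ) {δ δ' : ℝ} (hδ : 0 < δ) (h : δ ≤ δ') (y : ℝ) :
    pr w δ' y ≤ pr w δ y := by
  unfold pr
  refine Finset.prod_le_prod (fun j _ => by positivity) fun j _ => ?_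
  have h0 : 0 < max δ (nd (w j * y)) := lt_max_of_lt_left hδ
  apply inv_anti₀ (by positivity)
  exact pow_le_pow_left₀ (le_max_of_le_left hδ.le) (max_le_max_right _ h) 2

/-- the cosine in terms of the distance to the nearest integer -/
lemma one_sub_cos (x : ℝ) : 8 * nd x ^ 2 ≤ 1 - Real.cos (2 * Real.pi * x) ∧
    1 - Real.cos (2 * Real.pi * x) ≤ 2 * Real.pi ^ 2 * nd x ^ 2 := by
  have hp := Real.pi_pos
  set t := x - round x with ht
  have h1 : Real.cos (2 * Real.pi * x) = Real.cos (2 * Real.pi * t) := by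
    have : 2 * Real.pi * t = 2 * Real.pi * x - (round x : ℤ) * (2 * Real.pi) := by rw [ht]; ring
    rw [this, Real.cos_sub_int_mul_two_pi]
  have h2 : 1 - Real.cos (2 * Real.pi * t) = 2 * Real.sin (Real.pi * t) ^ 2 := by
    have h3 : 2 * Real.pi * t = 2 * (Real.pi * t) := by ring
    rw [h3, Real.cos_two_mul, Real.sin_sq]
    ring
  have h3 : |t| ≤ 1 / 2 := abs_sub_round x
  have h4 : |Real.pi * t| ≤ Real.pi / 2 := by
    rw [abs_mul, abs_of_pos hp]; nlinarith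
  have h5 := Real.mul_abs_le_abs_sin h4
  have h6 := Real.abs_sin_le_abs (x := Real.pi * t)
  rw [abs_mul Real.pi t, abs_of_pos hp] at h5 h6
  have h7 : 2 / Real.pi * (Real.pi * |t|) = 2 * |t| := by field_simp
  rw [h7] at h5
  have h8 : nd x = |t| := rfl
  have h9 : Real.sin (Real.pi * t) ^ 2 = |Real.sin (Real.pi * t)| ^ 2 := (sq_abs _).symm
  rw [h1, h2, h8, h9]
  have h10 := abs_nonneg t
  constructor
  · nlinarith
  · have h11 : |Real.sin (Real.pi * t)| ^ 2 ≤ (Real.pi * |t|) ^ 2 :=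
      pow_le_pow_left₀ (abs_nonneg _) h6 2
    nlinarith

/-- lower bound for one factor -/
lemma fac_sq_ge {w x Y : ℝ} (hw : 0 < w) (hx : 0 < x) :
    (max (min (w * x) 1) (nd (w * Y))) ^ 2 / 16 ≤
      ‖1 - cexp (-(w : ℂ) * ((x : ℂ) + ((2 * Real.pi * Y : ℝ) : ℂ) * I))‖ ^ 2 := by
  rw [fac_sq]
  have e1 : w * (2 * Real.pi * Y) = 2 * Real.pi * (w * Y) := by ring
  rw [e1]
  obtain ⟨h1, -⟩ := one_sub_cos (w * Y)
  set n := nd (w * Y) with hn
  have hn0 : 0 ≤ n := nd_nonneg _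
  have hn1 : n ≤ 1 / 2 := nd_le_half _
  set t := w * x with ht
  have ht0 : 0 < t := mul_pos hw hx
  have e2 : -w * x = -t := by rw [ht]; ring
  rw [e2]
  have h2 : t / (1 + t) ≤ 1 - Real.exp (-t) := by
    have h3 := Real.add_one_le_exp t
    have h4 : Real.exp (-t) ≤ 1 / (1 + t) := by
      rw [Real.exp_neg, ← one_div]
      exact one_div_le_one_div_of_le (by linarith) (by linarith)
    have h5 : t / (1 + t) = 1 - 1 / (1 + t) := by field_simp; ring
    linarith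
  have hE := Real.exp_pos (-t)
  rcases le_total t 1 with h | h
  · rw [min_eq_left h]
    have h3 : t / 2 ≤ t / (1 + t) := by
      apply div_le_div_of_nonneg_left ht0.le (by linarith) (by linarith)
    have h4 : 1 / 3 ≤ Real.exp (-t) := by
      have h5 : Real.exp (-1) ≤ Real.exp (-t) := Real.exp_le_exp.2 (by linarith)
      have h6 : 1 / 3 ≤ Real.exp (-1) := by
        rw [Real.exp_neg, ← one_div]
        exact one_div_le_one_div_of_le (Real.exp_pos 1) (by linarith [Real.exp_one_lt_d9])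
      linarith
    have h5 : (max t n) ^ 2 ≤ t ^ 2 + n ^ 2 := by
      rcases max_cases t n with ⟨h6, -⟩ | ⟨h6, -⟩ <;> rw [h6] <;> nlinarith
    have h6 : (t / 2) ^ 2 ≤ (1 - Real.exp (-t)) ^ 2 :=
      pow_le_pow_left₀ (by positivity) (h3.trans h2) 2
    have h7 : 2 * (1 / 3) * (8 * n ^ 2) ≤
        2 * Real.exp (-t) * (1 - Real.cos (2 * Real.pi * (w * Y))) := by
      gcongr
    nlinarith [sq_nonneg t, sq_nonneg n]
  · rw [min_eq_right h, max_eq_left (by linarith)]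
    have h3 : 1 / 2 ≤ t / (1 + t) := by
      rw [div_le_div_iff₀ (by norm_num) (by linarith)]
      linarith
    have h6 : (1 / 2 : ℝ) ^ 2 ≤ (1 - Real.exp (-t)) ^ 2 :=
      pow_le_pow_left₀ (by positivity) (h3.trans h2) 2
    have h7 : 0 ≤ 2 * Real.exp (-t) * (1 - Real.cos (2 * Real.pi * (w * Y))) := by
      have := Real.cos_le_one (2 * Real.pi * (w * Y))
      have : 0 ≤ 1 - Real.cos (2 * Real.pi * (w * Y)) := by linarith
      positivity
    norm_num at h6 ⊢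
    linarith

/-- upper bound for one factor -/
lemma fac_sq_le {w x Y : ℝ} (hw : 0 < w) (hx : 0 < x) :
    ‖1 - cexp (-(w : ℂ) * ((x : ℂ) + ((2 * Real.pi * Y : ℝ) : ℂ) * I))‖ ^ 2 ≤
      49 * (max (w * x) (nd (w * Y))) ^ 2 := by
  rw [fac_sq]
  have e1 : w * (2 * Real.pi * Y) = 2 * Real.pi * (w * Y) := by ring
  rw [e1]
  obtain ⟨-, h1⟩ := one_sub_cos (w * Y)
  set n := nd (w * Y) with hn
  have hn0 : 0 ≤ n := nd_nonneg _
  set t := w * x with ht
  have ht0 : 0 < t := mul_pos hw hx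
  have e2 : -w * x = -t := by rw [ht]; ring
  rw [e2]
  have hE := Real.exp_pos (-t)
  have hE1 : Real.exp (-t) ≤ 1 := by rw [Real.exp_le_one_iff]; linarith
  have h2 : 1 - Real.exp (-t) ≤ t := by
    have := Real.add_one_le_exp (-t)
    linarith
  have h3 : (1 - Real.exp (-t)) ^ 2 ≤ t ^ 2 := pow_le_pow_left₀ (by linarith) h2 2
  have h4 : 2 * Real.exp (-t) * (1 - Real.cos (2 * Real.pi * (w * Y))) ≤
      2 * 1 * (2 * Real.pi ^ 2 * n ^ 2) := by
    have := Real.cos_le_one (2 * Real.pi * (w * Y))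
    have h5 : 0 ≤ 1 - Real.cos (2 * Real.pi * (w * Y)) := by linarith
    gcongr
  have h5 : Real.pi ^ 2 ≤ 12 := by
    have := Real.pi_lt_d2
    have := Real.pi_pos
    nlinarith
  have h6 : t ^ 2 ≤ (max t n) ^ 2 := pow_le_pow_left₀ ht0.le (le_max_left _ _) 2
  have h7 : n ^ 2 ≤ (max t n) ^ 2 := pow_le_pow_left₀ hn0 (le_max_right _ _) 2
  nlinarith [sq_nonneg n]

/-- the square of the kernel, upper bound -/
lemma KK_upper {r : ℕ} {a : ℝ} {w : Fin r → ℝ} (hw : ∀ j, 0 < w j) {x Y δ : ℝ} (hx : 0 < x)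
    (hδ : 0 < δ) (hδx : ∀ j, δ ≤ w j * x) (hδ1 : δ ≤ 1) :
    ‖KK a w ((x : ℂ) + ((2 * Real.pi * Y : ℝ) : ℂ) * I)‖ₑ ^ 2 ≤
      ENNReal.ofReal (Real.exp (-(2 * a) * x) * (16 ^ r * pr w δ Y)) := by
  rw [KK_enorm, ENNReal.ofReal_mul (Real.exp_pos _).le]
  have e0 : ((x : ℂ) + ((2 * Real.pi * Y : ℝ) : ℂ) * I).re = x := by simp
  rw [e0]
  gcongr
  have e1 : 16 ^ r * pr w δ Y = ∏ j, (16 * ((max δ (nd (w j * Y))) ^ 2)⁻¹) := by
    unfold pr
    rw [Finset.prod_mul_distrib]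
    simp
  rw [e1, ENNReal.ofReal_prod_of_nonneg (fun j _ => by positivity)]
  refine Finset.prod_le_prod' fun j _ => ?_
  unfold fac
  apply ENNReal.ofReal_le_ofReal
  have h1 := fac_sq_ge (Y := Y) (hw j) hx
  have h2 : δ ≤ min (w j * x) 1 := le_min (hδx j) hδ1
  have h3 : (max δ (nd (w j * Y))) ^ 2 / 16 ≤ (max (min (w j * x) 1) (nd (w j * Y))) ^ 2 / 16 := by
    have h4 : (max δ (nd (w j * Y))) ^ 2 ≤ (max (min (w j * x) 1) (nd (w j * Y))) ^ 2 :=
      pow_le_pow_left₀ (le_max_of_le_left hδ.le) (max_le_max_right _ h2) 2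
    linarith
  have h5 : 0 < (max δ (nd (w j * Y))) ^ 2 / 16 := by
    have h0 : 0 < max δ (nd (w j * Y)) := lt_max_of_lt_left hδ
    positivity
  calc _ ≤ ((max δ (nd (w j * Y))) ^ 2 / 16)⁻¹ := inv_anti₀ h5 (h3.trans h1)
    _ = _ := by rw [inv_div, div_eq_mul_inv]

/-- the square of the kernel, lower bound -/
lemma KK_lower' {r : ℕ} {a : ℝ} {w : Fin r → ℝ} (hw : ∀ j, 0 < w j) {x Y δ C : ℝ} (hx : 0 < x)
    (hδ : 0 < δ) (hC : 1 ≤ C) (hδx : ∀ j, w j * x ≤ C * δ) :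
    ENNReal.ofReal (Real.exp (-(2 * a) * x) * (((49 * C ^ 2)⁻¹) ^ r * pr w δ Y)) ≤
      ‖KK a w ((x : ℂ) + ((2 * Real.pi * Y : ℝ) : ℂ) * I)‖ₑ ^ 2 := by
  rw [KK_enorm, ENNReal.ofReal_mul (Real.exp_pos _).le]
  have e0 : ((x : ℂ) + ((2 * Real.pi * Y : ℝ) : ℂ) * I).re = x := by simp
  rw [e0]
  gcongr
  have e1 : ((49 * C ^ 2)⁻¹) ^ r * pr w δ Y =
      ∏ j, ((49 * C ^ 2)⁻¹ * ((max δ (nd (w j * Y))) ^ 2)⁻¹) := by
    unfold pr
    rw [Finset.prod_mul_distrib]
    simp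
  rw [e1, ENNReal.ofReal_prod_of_nonneg (fun j _ => by positivity)]
  refine Finset.prod_le_prod' fun j _ => ?_
  unfold fac
  apply ENNReal.ofReal_le_ofReal
  have h1 := fac_sq_le (Y := Y) (hw j) hx
  have h1' := fac_sq_ge (Y := Y) (hw j) hx
  have hn := nd_nonneg (w j * Y)
  have h2 : max (w j * x) (nd (w j * Y)) ≤ C * max δ (nd (w j * Y)) := by
    refine max_le ((hδx j).trans ?_) ?_
    · exact mul_le_mul_of_nonneg_left (le_max_left _ _) (by linarith)
    · calc nd (w j * Y) ≤ max δ (nd (w j * Y)) := le_max_right _ _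
        _ ≤ _ := le_mul_of_one_le_left (le_max_of_le_left hδ.le) hC
  have h3 : 49 * (max (w j * x) (nd (w j * Y))) ^ 2 ≤ 49 * C ^ 2 * (max δ (nd (w j * Y))) ^ 2 := by
    have h4 : (max (w j * x) (nd (w j * Y))) ^ 2 ≤ (C * max δ (nd (w j * Y))) ^ 2 :=
      pow_le_pow_left₀ (le_max_of_le_right hn) h2 2
    nlinarith
  have h5 : 0 < ‖1 - cexp (-(w j : ℂ) * ((x : ℂ) + ((2 * Real.pi * Y : ℝ) : ℂ) * I))‖ ^ 2 := by
    refine lt_of_lt_of_le ?_ h1'
    have h6 : 0 < min (w j * x) 1 := lt_min (mul_pos (hw j) hx) one_pos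
    have h0 : 0 < max (min (w j * x) 1) (nd (w j * Y)) := lt_max_of_lt_left h6
    positivity
  rw [← mul_inv]
  exact inv_anti₀ h5 (h1.trans h3)

/-- change of variables -/
lemma cv {c : ℝ} (hc : 0 < c) {Y₀ Y₁ : ℝ} (hY : 0 < Y₀) (G : ℝ → ENNReal) :
    ∫⁻ u in {u : ℝ | Y₀ ≤ c * Real.exp (-u) ∧ c * Real.exp (-u) ≤ Y₁}, G (c * Real.exp (-u)) =
      ∫⁻ Y in Icc Y₀ Y₁, G Y * ENNReal.ofReal (Y⁻¹) := by
  set S : Set ℝ := {u : ℝ | Y₀ ≤ c * Real.exp (-u) ∧ c * Real.exp (-u) ≤ Y₁} with hS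
  have hSm : MeasurableSet S := by
    have h1 : Measurable fun u : ℝ => c * Real.exp (-u) := by fun_prop
    exact (measurableSet_le measurable_const h1).inter (measurableSet_le h1 measurable_const)
  have himg : (fun u : ℝ => c * Real.exp (-u)) '' S = Icc Y₀ Y₁ := by
    ext Y
    constructor
    · rintro ⟨u, hu, rfl⟩
      exact ⟨hu.1, hu.2⟩
    · intro hY'
      have hYp : 0 < Y := hY.trans_le hY'.1
      have h2 : c * Real.exp (-(-Real.log (Y / c))) = Y := by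
        rw [neg_neg, Real.exp_log (by positivity)]
        field_simp
      refine ⟨-Real.log (Y / c), ?_, h2⟩
      change _ ≤ _ ∧ _ ≤ _
      rw [h2]
      exact hY'
  have h1 := lintegral_image_eq_lintegral_abs_deriv_mul (s := S)
    (f := fun u : ℝ => c * Real.exp (-u)) (f' := fun u : ℝ => c * (Real.exp (-u) * (-1))) hSm
    (by
      intro u _
      have h2 : HasDerivAt (fun u : ℝ => Real.exp (-u)) (Real.exp (-u) * (-1)) u :=
        (hasDerivAt_neg u).exp
      exact (h2.const_mul c).hasDerivWithinAt)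
    (by
      intro u _ v _ h
      simp only at h
      have h2 := mul_left_cancel₀ hc.ne' h
      have h3 := Real.exp_injective h2
      linarith) (fun Y => G Y * ENNReal.ofReal (Y⁻¹))
  rw [himg] at h1
  rw [h1]
  refine setLIntegral_congr_fun hSm fun u _ => ?_
  have hp : 0 < c * Real.exp (-u) := by positivity
  have h2 : |c * (Real.exp (-u) * (-1))| = c * Real.exp (-u) := by
    rw [mul_neg_one, mul_neg, abs_neg, abs_of_pos hp]
  rw [h2, mul_comm (G _), ← mul_assoc, ← ENNReal.ofReal_mul hp.le, mul_inv_cancel₀ hp.ne',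
    ENNReal.ofReal_one, one_mul]

end Pool.Agent.T6.H60.BC
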